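import Mathlib
import Pool.Agent.N875.X15.Lin

/-!
# QB-CNT: the linear algebra
-/

set_option autoImplicit false

namespace Pool.Agent.N574.QB

open scoped Classical

open Pool.Agent.N875.X15 (sg ad sg_add sg_inj sg_sum sg_ad transpose_criterion)

/-! ### abstract linear algebra -/

lemma surj_of_transpose {ι σ : Type} [Fintype ι] [Fintype σ] [DecidableEq ι] [DecidableEq σ]
    (L : Matrix σ ι (ZMod 2)) (h : ∀ ρ, L.transpose.mulVec ρ = 0 → ρ = 0) :
    Function.Surjective L.mulVecLin := by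
  have hker : LinearMap.ker (Matrix.mulVecLin L.transpose) = ⊥ := by
    rw [LinearMap.ker_eq_bot']
    exact h
  have e1 := LinearMap.finrank_range_add_finrank_ker (Matrix.mulVecLin L.transpose)
  rw [hker, finrank_bot, add_zero, Module.finrank_fintype_fun_eq_card] at e1
  have e3 : Module.finrank (ZMod 2) (LinearMap.range (Matrix.mulVecLin L.transpose)) =
    Module.finrank (ZMod 2) (LinearMap.range (Matrix.mulVecLin L)) := Matrix.rank_transpose L
  rw [← LinearMap.range_eq_top]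
  refine Submodule.eq_top_of_finrank_eq ?_
  rw [← e3, e1, Module.finrank_fintype_fun_eq_card]

lemma card_ker {ι σ : Type} [Fintype ι] [Fintype σ] [DecidableEq ι] [DecidableEq σ]
    (LB MA MB : Matrix σ ι (ZMod 2))
    (h1 : ∀ ρ, LB.transpose.mulVec ρ = 0 → ρ = 0) (h2 : ∀ ρ, MA.transpose.mulVec ρ = 0 → ρ = 0) :
    Nat.card {x : (ι → ZMod 2) × (ι → ZMod 2) //
      MA.mulVec x.1 + MB.mulVec x.2 = 0 ∧ LB.mulVec x.2 = 0} =
      4 ^ (Fintype.card ι - Fintype.card σ) := by
  let F : ((ι → ZMod 2) × (ι → ZMod 2)) →ₗ[ZMod 2] ((σ → ZMod 2) × (σ → ZMod 2)) :=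
    LinearMap.prod (MA.mulVecLin ∘ₗ LinearMap.fst _ _ _ + MB.mulVecLin ∘ₗ LinearMap.snd _ _ _)
      (LB.mulVecLin ∘ₗ LinearMap.snd _ _ _)
  have hF : ∀ x, F x = (MA.mulVec x.1 + MB.mulVec x.2, LB.mulVec x.2) := fun x => rfl
  have hsur : Function.Surjective F := by
    rintro ⟨u, v⟩
    obtain ⟨β, hβ⟩ := surj_of_transpose LB h1 v
    obtain ⟨α, hα⟩ := surj_of_transpose MA h2 (u - MB.mulVec β)
    refine ⟨(α, β), ?_⟩
    rw [hF]
    have hα' : MA.mulVec α = u - MB.mulVec β := hα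
    have hβ' : LB.mulVec β = v := hβ
    simp [hα', hβ']
  have e0 : Nat.card {x : (ι → ZMod 2) × (ι → ZMod 2) //
      MA.mulVec x.1 + MB.mulVec x.2 = 0 ∧ LB.mulVec x.2 = 0} = Nat.card (LinearMap.ker F) := by
    refine Nat.card_congr (Equiv.subtypeEquivRight fun x => ?_)
    rw [LinearMap.mem_ker, hF, Prod.mk_eq_zero]
  rw [e0, Module.natCard_eq_pow_finrank (K := ZMod 2), Nat.card_zmod]
  have e1 := LinearMap.finrank_range_add_finrank_ker F
  rw [LinearMap.range_eq_top.2 hsur, finrank_top, Module.finrank_prod, Module.finrank_prod,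
    Module.finrank_fintype_fun_eq_card, Module.finrank_fintype_fun_eq_card] at e1
  have e2 : Module.finrank (ZMod 2) (LinearMap.ker F) =
      2 * (Fintype.card ι - Fintype.card σ) := by omega
  rw [e2, pow_mul]
  norm_num

/-! ### supports -/

section supp

variable {S : Finset ℕ}

/-- the support of a function -/
noncomputable def supp (ρ : S → ZMod 2) : Finset ℕ :=
  (Finset.univ.filter fun p : S => ρ p = 1).map (Function.Embedding.subtype _)

lemma mem_supp {ρ : S → ZMod 2} {q : ℕ} : q ∈ supp ρ ↔ ∃ h : q ∈ S, ρ ⟨q, h⟩ = 1 := by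
  unfold supp
  rw [Finset.mem_map]
  constructor
  · rintro ⟨⟨p, hp⟩, h1, rfl⟩
    rw [Finset.mem_filter] at h1
    exact ⟨hp, h1.2⟩
  · rintro ⟨h, h1⟩
    exact ⟨⟨q, h⟩, Finset.mem_filter.2 ⟨Finset.mem_univ _, h1⟩, rfl⟩

lemma supp_sub (ρ : S → ZMod 2) : supp ρ ⊆ S := fun _ h => (mem_supp.1 h).1

lemma h01 : ∀ c : ZMod 2, c = 0 ∨ c = 1 := by decide

lemma supp_inj {ρ τ : S → ZMod 2} (h : supp ρ = supp τ) : ρ = τ := by
  funext q
  have h1 : ρ q = 1 ↔ τ q = 1 := by
    have h2 := Finset.ext_iff.1 h q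
    rw [mem_supp, mem_supp] at h2
    constructor
    · intro h3
      exact (h2.1 ⟨q.2, h3⟩).choose_spec
    · intro h3
      exact (h2.2 ⟨q.2, h3⟩).choose_spec
  rcases h01 (ρ q) with h3 | h3 <;> rcases h01 (τ q) with h4 | h4
  · rw [h3, h4]
  · rw [h4, h3] at h1
    exact absurd (h1.2 rfl) (by decide)
  · rw [h4, h3] at h1
    exact absurd (h1.1 rfl) (by decide)
  · rw [h3, h4]

lemma supp_eq_empty {ρ : S → ZMod 2} (h : supp ρ = ∅) : ρ = 0 := by
  refine supp_inj (h.trans ?_)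
  symm
  rw [Finset.eq_empty_iff_forall_notMem]
  intro q hq
  obtain ⟨h1, h2⟩ := mem_supp.1 hq
  have h3 : (0 : ZMod 2) = 1 := h2
  exact absurd h3 (by decide)

lemma exists_supp {T : Finset ℕ} (h : T ⊆ S) : ∃ ρ : S → ZMod 2, supp ρ = T := by
  refine ⟨fun q => if (q : ℕ) ∈ T then 1 else 0, ?_⟩
  ext q
  rw [mem_supp]
  constructor
  · rintro ⟨h1, h2⟩
    by_contra h3
    rw [if_neg h3] at h2
    exact absurd h2 (by decide)
  · intro h1
    exact ⟨h h1, if_pos h1⟩

lemma sum_supp (ρ : S → ZMod 2) (F : ℕ → ZMod 2) : ∑ p : S, F p * ρ p = ∑ p ∈ supp ρ, F p := by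
  unfold supp
  rw [Finset.sum_map, Finset.sum_filter]
  refine Finset.sum_congr rfl fun p _ => ?_
  rcases h01 (ρ p) with h1 | h1
  · rw [h1, mul_zero, if_neg (by decide)]
  · rw [h1, mul_one, if_pos rfl]
    rfl

end supp

/-! ### symbols -/

lemma jac_prod_right (a : ℤ) (s : Finset ℕ) (hs : ∀ p ∈ s, p ≠ 0) :
    jacobiSym a (∏ p ∈ s, p) = ∏ p ∈ s, jacobiSym a p := by
  induction s using Finset.induction_on with
  | empty => simp [jacobiSym.one_right]
  | insert x s hx ih =>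
    have : NeZero x := ⟨hs x (Finset.mem_insert_self _ _)⟩
    have : NeZero (∏ p ∈ s, p) := ⟨Finset.prod_ne_zero_iff.2
      (fun p hp => hs p (Finset.mem_insert_of_mem hp))⟩
    rw [Finset.prod_insert hx, Finset.prod_insert hx, jacobiSym.mul_right,
      ih fun p hp => hs p (Finset.mem_insert_of_mem hp)]

lemma jac_prod_left (f : ℕ → ℤ) (s : Finset ℕ) (q : ℕ) :
    jacobiSym (∏ p ∈ s, f p) q = ∏ p ∈ s, jacobiSym (f p) q := by
  induction s using Finset.induction_on with
  | empty => simp [jacobiSym.one_left]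
  | insert x s hx ih => rw [Finset.prod_insert hx, Finset.prod_insert hx, jacobiSym.mul_left, ih]

/-- the sign of `q*` -/
def eps (q : ℕ) : ℤ := if q % 4 = 3 then -1 else 1

lemma eps_sq (q : ℕ) : eps q * eps q = 1 := by
  unfold eps
  split_ifs <;> norm_num

lemma eps_natAbs (q : ℕ) : (eps q).natAbs = 1 := by
  unfold eps
  split_ifs <;> rfl

lemma eps_mod {q : ℕ} (hq : q % 2 = 1) : (eps q * q) % 4 = 1 := by
  unfold eps
  split_ifs with h <;> omega

/-- reciprocity for numbers `≡ 1 mod 4` -/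
lemma recip {d : ℤ} (hd : d % 4 = 1) {p : ℕ} (hp : p % 2 = 1) :
    jacobiSym d p = jacobiSym p d.natAbs := by
  have hp' : Odd p := Nat.odd_iff.2 hp
  rcases le_or_gt 0 d with h | h
  · have h1 : (d.natAbs : ℤ) = d := Int.natAbs_of_nonneg h
    rw [← h1, Int.natAbs_natCast]
    exact jacobiSym.quadratic_reciprocity_one_mod_four (by omega) hp'
  · have h1 : (d.natAbs : ℤ) = -d := by
      rw [Int.natCast_natAbs, abs_of_neg h]
    have h3 : d = -1 * (d.natAbs : ℤ) := by rw [h1]; ring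
    have h4 : d.natAbs % 4 = 3 := by omega
    conv_lhs => rw [h3]
    rw [jacobiSym.mul_left, jacobiSym.at_neg_one hp']
    have h5 : p % 4 = 1 ∨ p % 4 = 3 := by omega
    rcases h5 with h5 | h5
    · rw [ZMod.χ₄_nat_one_mod_four h5, one_mul]
      exact (jacobiSym.quadratic_reciprocity_one_mod_four h5 (Nat.odd_iff.2 (by omega))).symm
    · rw [ZMod.χ₄_nat_three_mod_four h5,
        jacobiSym.quadratic_reciprocity_three_mod_four h4 h5]
      ring

/-- the entries for `b` -/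
noncomputable def LBf (n p q : ℕ) : ZMod 2 := if q = p then ad ((n / p : ℕ) : ℤ) p else ad (eps q * q) p

/-- the entries for `a` -/
noncomputable def MAf (n p q : ℕ) : ZMod 2 := if q = p then ad ((n / p : ℕ) : ℤ) p else ad (q : ℤ) p

/-- the entries for `b` in the second condition -/
noncomputable def MBf (p q : ℕ) : ZMod 2 :=
  (if q % 4 = 3 then ad (-1) p else 0) + (if q = p then ad (-1) p else 0)

/-- the criterion `Qc` -/
def QQ (n : ℕ) : Prop := ∀ b c : ℕ, b * c = n →
  (∀ p : ℕ, p.Prime → p ∣ c → jacobiSym b p = 1) →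
  (∀ p : ℕ, p.Prime → p ∣ b → jacobiSym c p = 1) → b = 1 ∨ c = 1

/-- the transposed criterion -/
def QT (n : ℕ) : Prop := ∀ b c : ℕ, b * c = n →
  (∀ p : ℕ, p.Prime → p ∣ c → jacobiSym p b = 1) →
  (∀ p : ℕ, p.Prime → p ∣ b → jacobiSym p c = 1) → b = 1 ∨ c = 1

lemma one_of_sq_mul {x y : ℤ} (hx : x = 1 ∨ x = -1) (h : x * y * x = 1) : y = 1 := by
  rcases hx with rfl | rfl <;> linarith

lemma jac_pm {a : ℤ} {q : ℕ} (h : IsCoprime a (q : ℤ)) : jacobiSym a q = 1 ∨ jacobiSym a q = -1 :=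
  jacobiSym.eq_one_or_neg_one (Int.isCoprime_iff_gcd_eq_one.1 h)

section main

variable {n d q₀ : ℕ}

/-- the data of the setting -/
structure HH (n d q₀ : ℕ) : Prop where
  hn : Squarefree n
  hn4 : n % 4 = 3
  hd : Squarefree d
  hd4 : d % 4 = 1
  hc : n.Coprime d
  hd1 : 1 < d
  hq : q₀.Prime
  hqd : q₀ ∣ d

lemma HH.odd (H : HH n d q₀) {p : ℕ} (hp : p.Prime) (h : p ∣ n * d) : p % 2 = 1 := by
  rcases hp.eq_two_or_odd with h1 | h1
  · exfalso
    subst h1
    rcases (Nat.Prime.dvd_mul Nat.prime_two).1 h with h2 | h2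
    · have := H.hn4; omega
    · have := H.hd4; omega
  · exact h1

lemma HH.nd4 (H : HH n d q₀) : n * d % 4 = 3 := by
  rw [Nat.mul_mod, H.hn4, H.hd4]

lemma HH.sq (H : HH n d q₀) : Squarefree (n * d) :=
  (Nat.squarefree_mul H.hc).2 ⟨H.hn, H.hd⟩

lemma cop {p q : ℕ} (hp : p.Prime) (hq : q.Prime) (h : p ≠ q) : IsCoprime (p : ℤ) (q : ℤ) := by
  rw [Nat.isCoprime_iff_coprime]
  exact (Nat.coprime_primes hp hq).2 h

lemma eps_unit (q : ℕ) : IsUnit (eps q) := by
  rw [Int.isUnit_iff]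
  unfold eps
  split_ifs <;> simp

lemma cop_eps {p q : ℕ} (hp : p.Prime) (hq : q.Prime) (h : p ≠ q) :
    IsCoprime (eps p * p : ℤ) (q : ℤ) :=
  (isCoprime_mul_unit_left_left (eps_unit p) _ _).2 (cop hp hq h)

/-- the product of the complement -/
lemma split_prod (H : HH n d q₀) {R : Finset ℕ} (hR : R ⊆ n.primeFactors) :
    (∏ p ∈ R, p) * ∏ p ∈ n.primeFactors \ R, p = n := by
  rw [mul_comm, Finset.prod_sdiff hR, Nat.prod_primeFactors_of_squarefree H.hn]

lemma prime_dvd_prod {R : Finset ℕ} (hR : ∀ p ∈ R, p.Prime) {q : ℕ} (hq : q.Prime)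
    (h : q ∣ ∏ p ∈ R, p) : q ∈ R := by
  obtain ⟨p, hp, hqp⟩ := (Prime.dvd_finsetProd_iff hq.prime _).1 h
  rwa [(Nat.prime_dvd_prime_iff_eq hq (hR p hp)).1 hqp]

lemma prod_one {R : Finset ℕ} (hR : ∀ p ∈ R, p.Prime) (h : ∏ p ∈ R, p = 1) : R = ∅ := by
  rw [Finset.eq_empty_iff_forall_notMem]
  intro q hq
  have := Finset.dvd_prod_of_mem (fun q : ℕ => q) hq
  rw [h, Nat.dvd_one] at this
  exact (hR q hq).one_lt.ne' this

/-- **The rows for `b` are independent.** -/
theorem LB_inj (H : HH n d q₀) (hQ : QQ n) (hQ' : QQ (n * d)) {R : Finset ℕ}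
    (hR : R ⊆ n.primeFactors.filter fun p => jacobiSym d p = 1)
    (h : ∀ q ∈ (n * d).primeFactors.erase q₀, ∑ p ∈ R, LBf n p q = 0) : R = ∅ := by
  have hn0 := H.hn.ne_zero
  have hd0 := H.hd.ne_zero
  have hRn : R ⊆ n.primeFactors := hR.trans (Finset.filter_subset _ _)
  have hRp : ∀ p ∈ R, p.Prime := fun p hp => Nat.prime_of_mem_primeFactors (hRn hp)
  have hodd : ∀ p ∈ n.primeFactors, p % 2 = 1 := fun p hp =>
    H.odd (Nat.prime_of_mem_primeFactors hp) ((Nat.dvd_of_mem_primeFactors hp).mul_right d)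
  have hsub : ∀ p ∈ n.primeFactors, p ∈ (n * d).primeFactors.erase q₀ := by
    intro p hp
    rw [Finset.mem_erase, Nat.mem_primeFactors]
    rw [Nat.mem_primeFactors] at hp
    refine ⟨?_, hp.1, hp.2.1.mul_right d, mul_ne_zero hn0 hd0⟩
    rintro rfl
    exact hp.1.one_lt.ne' (Nat.eq_one_of_dvd_coprimes H.hc hp.2.1 H.hqd)
  have hpodd : ∀ T : Finset ℕ, T ⊆ n.primeFactors → (∏ p ∈ T, p) % 2 = 1 := by
    intro T hT
    rw [← Nat.odd_iff]
    exact Finset.prod_induction _ Odd (fun a b => Odd.mul) odd_one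
      (fun p hp => Nat.odd_iff.2 (hodd p (hT hp)))
  -- outside `R`
  have key0 : ∀ (T : Finset ℕ), T ⊆ n.primeFactors → ∀ q : ℕ, q.Prime → q % 2 = 1 → q ∉ T →
      sg (∑ p ∈ T, LBf n p q) = jacobiSym ((∏ p ∈ T, p : ℕ) : ℤ) q := by
    intro T hT q hq hq2 hqT
    rw [sg_sum]
    have e1 : ∀ p ∈ T, sg (LBf n p q) = jacobiSym (eps q * q) p := by
      intro p hp
      have hpq : q ≠ p := fun h => hqT (h ▸ hp)
      rw [LBf, if_neg hpq, sg_ad (cop_eps hq (Nat.prime_of_mem_primeFactors (hT hp)) hpq)]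
    rw [Finset.prod_congr rfl e1, ← jac_prod_right _ _
      (fun p hp => (Nat.prime_of_mem_primeFactors (hT hp)).ne_zero),
      recip (eps_mod hq2) (hpodd T hT), Int.natAbs_mul, eps_natAbs, one_mul, Int.natAbs_natCast]
  have key1 : ∀ q ∈ (n * d).primeFactors.erase q₀, q ∉ R →
      jacobiSym ((∏ p ∈ R, p : ℕ) : ℤ) q = 1 := by
    intro q hq hqR
    have hq' := Nat.mem_primeFactors.1 (Finset.mem_erase.1 hq).2
    rw [← key0 R hRn q hq'.1 (H.odd hq'.1 hq'.2.1) hqR, h q hq]
    rfl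
  set r := ∏ p ∈ R, p with hr
  set c := ∏ p ∈ n.primeFactors \ R, p with hcc
  have hrc : r * c = n := split_prod H hRn
  have key2 : ∀ q ∈ R, jacobiSym (c : ℤ) q = 1 := by
    intro q hq
    have hqp := hRp q hq
    have hq2 := hodd q (hRn hq)
    have h1 := h q (hsub q (hRn hq))
    rw [← Finset.add_sum_erase _ _ hq] at h1
    have h2 := congrArg sg h1
    rw [sg_add, key0 (R.erase q) ((Finset.erase_subset _ _).trans hRn) q hqp hq2
      (Finset.notMem_erase _ _), LBf, if_pos rfl] at h2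
    set r' := ∏ p ∈ R.erase q, p with hr'
    have hqr : q * r' = r := Finset.mul_prod_erase R (fun p : ℕ => p) hq
    have hnq : n / q = r' * c := by
      rw [← hrc, ← hqr, mul_assoc, Nat.mul_div_cancel_left _ hqp.pos]
    have hcopn : ∀ x : ℕ, q * x ∣ n → IsCoprime (x : ℤ) (q : ℤ) := by
      intro x hx
      rw [Nat.isCoprime_iff_coprime]
      exact (Nat.coprime_of_squarefree_mul (H.hn.squarefree_of_dvd hx)).symm
    have c1 : IsCoprime ((n / q : ℕ) : ℤ) (q : ℤ) := hcopn _ (by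
      rw [Nat.mul_div_cancel' (Nat.dvd_of_mem_primeFactors (hRn hq))])
    have c2 : IsCoprime (r' : ℤ) (q : ℤ) := hcopn _ ⟨c, by rw [hqr, hrc]⟩
    rw [sg_ad c1, hnq, Nat.cast_mul, jacobiSym.mul_left] at h2
    exact one_of_sq_mul (jac_pm c2) (h2.trans rfl)
  rcases hQ r c hrc (fun p hp hpc => by
      have hpn : p ∣ n := hpc.trans ⟨r, by rw [mul_comm, hrc]⟩
      have hp' : p ∈ n.primeFactors \ R := prime_dvd_prod
        (fun p hp => Nat.prime_of_mem_primeFactors (Finset.mem_sdiff.1 hp).1) hp hpc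
      exact key1 p (hsub p (Finset.mem_sdiff.1 hp').1) (Finset.mem_sdiff.1 hp').2)
    (fun p hp hpr => key2 p (prime_dvd_prod hRp hp hpr)) with h1 | h1
  · exact prod_one hRp h1
  · exfalso
    have hrn : r = n := by rw [← hrc, h1, mul_one]
    have hRe : n.primeFactors \ R = ∅ := prod_one
      (fun p hp => Nat.prime_of_mem_primeFactors (Finset.mem_sdiff.1 hp).1) h1
    have hall : ∀ p ∈ n.primeFactors, jacobiSym d p = 1 := by
      intro p hp
      have : p ∈ R := Finset.sdiff_eq_empty_iff_subset.1 hRe hp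
      exact (Finset.mem_filter.1 (hR this)).2
    have hdn : jacobiSym (d : ℤ) n = 1 := by
      conv_lhs => rw [← Nat.prod_primeFactors_of_squarefree H.hn]
      rw [jac_prod_right _ _ (fun p hp => (Nat.prime_of_mem_primeFactors hp).ne_zero)]
      exact Finset.prod_eq_one hall
    have hnd : jacobiSym (n : ℤ) d = 1 := by
      rw [← jacobiSym.quadratic_reciprocity_one_mod_four H.hd4 (Nat.odd_iff.2 (by
        have := H.hn4; omega))]
      exact hdn
    have hqq : ∀ q ∈ d.primeFactors, q ≠ q₀ → jacobiSym (n : ℤ) q = 1 := by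
      intro q hq hq0
      have hq' := Nat.mem_primeFactors.1 hq
      have h2 : q ∉ R := by
        intro h3
        have h4 := Nat.dvd_of_mem_primeFactors (hRn h3)
        exact hq'.1.one_lt.ne' (Nat.eq_one_of_dvd_coprimes H.hc h4 hq'.2.1)
      have h3 := key1 q (Finset.mem_erase.2 ⟨hq0, Nat.mem_primeFactors.2
        ⟨hq'.1, hq'.2.1.mul_left n, mul_ne_zero hn0 hd0⟩⟩) h2
      rwa [hrn] at h3
    have hq0d : q₀ ∈ d.primeFactors := Nat.mem_primeFactors.2 ⟨H.hq, H.hqd, hd0⟩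
    have hq0 : jacobiSym (n : ℤ) q₀ = 1 := by
      have h2 : jacobiSym (n : ℤ) d = jacobiSym (n : ℤ) q₀ := by
        conv_lhs => rw [← Nat.prod_primeFactors_of_squarefree H.hd]
        rw [jac_prod_right _ _ (fun p hp => (Nat.prime_of_mem_primeFactors hp).ne_zero),
          ← Finset.mul_prod_erase _ _ hq0d, Finset.prod_eq_one, mul_one]
        intro q hq
        exact hqq q (Finset.mem_of_mem_erase hq) (Finset.ne_of_mem_erase hq)
      rw [← h2]
      exact hnd
    rcases hQ' n d rfl (fun p hp hpd => by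
        by_cases h2 : p = q₀
        · rw [h2]; exact hq0
        · exact hqq p (Nat.mem_primeFactors.2 ⟨hp, hpd, hd0⟩) h2)
      (fun p hp hpn => hall p (Nat.mem_primeFactors.2 ⟨hp, hpn, hn0⟩)) with h2 | h2
    · have := H.hn4; omega
    · have := H.hd1; omega

/-- **The rows for `a` are independent.** -/
theorem MA_inj (H : HH n d q₀) (hQ : QT n) (hQ' : QT (n * d)) {R : Finset ℕ}
    (hR : R ⊆ n.primeFactors.filter fun p => jacobiSym d p = 1)
    (h : ∀ q ∈ (n * d).primeFactors.erase q₀, ∑ p ∈ R, MAf n p q = 0) : R = ∅ := by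
  have hn0 := H.hn.ne_zero
  have hd0 := H.hd.ne_zero
  have hRn : R ⊆ n.primeFactors := hR.trans (Finset.filter_subset _ _)
  have hRp : ∀ p ∈ R, p.Prime := fun p hp => Nat.prime_of_mem_primeFactors (hRn hp)
  have hodd : ∀ p ∈ n.primeFactors, p % 2 = 1 := fun p hp =>
    H.odd (Nat.prime_of_mem_primeFactors hp) ((Nat.dvd_of_mem_primeFactors hp).mul_right d)
  have hsub : ∀ p ∈ n.primeFactors, p ∈ (n * d).primeFactors.erase q₀ := by
    intro p hp
    rw [Finset.mem_erase, Nat.mem_primeFactors]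
    rw [Nat.mem_primeFactors] at hp
    refine ⟨?_, hp.1, hp.2.1.mul_right d, mul_ne_zero hn0 hd0⟩
    rintro rfl
    exact hp.1.one_lt.ne' (Nat.eq_one_of_dvd_coprimes H.hc hp.2.1 H.hqd)
  have key0 : ∀ (T : Finset ℕ), T ⊆ n.primeFactors → ∀ q : ℕ, q.Prime → q ∉ T →
      sg (∑ p ∈ T, MAf n p q) = jacobiSym (q : ℤ) (∏ p ∈ T, p) := by
    intro T hT q hq hqT
    rw [sg_sum]
    have e1 : ∀ p ∈ T, sg (MAf n p q) = jacobiSym (q : ℤ) p := by
      intro p hp
      have hpq : q ≠ p := fun h => hqT (h ▸ hp)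
      rw [MAf, if_neg hpq, sg_ad (cop hq (Nat.prime_of_mem_primeFactors (hT hp)) hpq)]
    rw [Finset.prod_congr rfl e1, ← jac_prod_right _ _
      (fun p hp => (Nat.prime_of_mem_primeFactors (hT hp)).ne_zero)]
  have key1 : ∀ q ∈ (n * d).primeFactors.erase q₀, q ∉ R →
      jacobiSym (q : ℤ) (∏ p ∈ R, p) = 1 := by
    intro q hq hqR
    have hq' := Nat.mem_primeFactors.1 (Finset.mem_erase.1 hq).2
    rw [← key0 R hRn q hq'.1 hqR, h q hq]
    rfl
  set r := ∏ p ∈ R, p with hr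
  set c := ∏ p ∈ n.primeFactors \ R, p with hcc
  have hrc : r * c = n := split_prod H hRn
  have key2 : ∀ q ∈ R, jacobiSym (q : ℤ) c = 1 := by
    intro q hq
    have hqp := hRp q hq
    have hq2 := hodd q (hRn hq)
    have h1 := h q (hsub q (hRn hq))
    rw [← Finset.add_sum_erase _ _ hq] at h1
    have h2 := congrArg sg h1
    rw [sg_add, key0 (R.erase q) ((Finset.erase_subset _ _).trans hRn) q hqp
      (Finset.notMem_erase _ _), MAf, if_pos rfl] at h2
    set r' := ∏ p ∈ R.erase q, p with hr'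
    have hqr : q * r' = r := Finset.mul_prod_erase R (fun p : ℕ => p) hq
    have hnq : n / q = r' * c := by
      rw [← hrc, ← hqr, mul_assoc, Nat.mul_div_cancel_left _ hqp.pos]
    have hqn : q * (n / q) = n := Nat.mul_div_cancel' (Nat.dvd_of_mem_primeFactors (hRn hq))
    have hcopn : ∀ x : ℕ, q * x ∣ n → IsCoprime (x : ℤ) (q : ℤ) := by
      intro x hx
      rw [Nat.isCoprime_iff_coprime]
      exact (Nat.coprime_of_squarefree_mul (H.hn.squarefree_of_dvd hx)).symm
    have c1 : IsCoprime ((n / q : ℕ) : ℤ) (q : ℤ) := hcopn _ (by rw [hqn])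
    have c2 : IsCoprime (r' : ℤ) (q : ℤ) := hcopn _ ⟨c, by rw [hqr, hrc]⟩
    have hk2 : (n / q) % 2 = 1 := by
      rcases Nat.mod_two_eq_zero_or_one (n / q) with h | h
      · exfalso
        have h3 : q * (n / q) % 2 = 0 := by rw [Nat.mul_mod, h, mul_zero, Nat.zero_mod]
        rw [hqn] at h3
        have := H.hn4
        omega
      · exact h
    have hrecip : jacobiSym ((n / q : ℕ) : ℤ) q = jacobiSym (q : ℤ) (n / q) := by
      have h5 : q % 4 * ((n / q) % 4) % 4 = 3 := by rw [← Nat.mul_mod, hqn, H.hn4]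
      have h6 : q % 4 = 1 ∨ (n / q) % 4 = 1 := by
        have h7 : q % 4 = 1 ∨ q % 4 = 3 := by omega
        have h8 : (n / q) % 4 = 1 ∨ (n / q) % 4 = 3 := by omega
        rcases h7 with h7 | h7
        · exact Or.inl h7
        · rcases h8 with h8 | h8
          · exact Or.inr h8
          · rw [h7, h8] at h5
            omega
      rcases h6 with h6 | h6
      · exact (jacobiSym.quadratic_reciprocity_one_mod_four h6 (Nat.odd_iff.2 hk2)).symm
      · exact (jacobiSym.quadratic_reciprocity_one_mod_four h6 (Nat.odd_iff.2 hq2))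
    have hr0 : r' ≠ 0 := by
      rintro h0
      rw [h0, mul_zero] at hqr
      rw [← hqr, zero_mul] at hrc
      exact hn0 hrc.symm
    have hc0 : c ≠ 0 := by
      rintro h0
      rw [h0, mul_zero] at hrc
      exact hn0 hrc.symm
    have : NeZero r' := ⟨hr0⟩
    have : NeZero c := ⟨hc0⟩
    rw [sg_ad c1, hrecip, hnq, jacobiSym.mul_right] at h2
    exact one_of_sq_mul (jac_pm (by
      rw [Nat.isCoprime_iff_coprime]
      rw [Nat.isCoprime_iff_coprime] at c2
      exact c2.symm)) (h2.trans rfl)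
  rcases hQ r c hrc (fun p hp hpc => by
      have hpn : p ∣ n := hpc.trans ⟨r, by rw [mul_comm, hrc]⟩
      have hp' : p ∈ n.primeFactors \ R := prime_dvd_prod
        (fun p hp => Nat.prime_of_mem_primeFactors (Finset.mem_sdiff.1 hp).1) hp hpc
      exact key1 p (hsub p (Finset.mem_sdiff.1 hp').1) (Finset.mem_sdiff.1 hp').2)
    (fun p hp hpr => key2 p (prime_dvd_prod hRp hp hpr)) with h1 | h1
  · exact prod_one hRp h1
  · exfalso
    have hrn : r = n := by rw [← hrc, h1, mul_one]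
    have hRe : n.primeFactors \ R = ∅ := prod_one
      (fun p hp => Nat.prime_of_mem_primeFactors (Finset.mem_sdiff.1 hp).1) h1
    have hall : ∀ p ∈ n.primeFactors, jacobiSym d p = 1 := by
      intro p hp
      have : p ∈ R := Finset.sdiff_eq_empty_iff_subset.1 hRe hp
      exact (Finset.mem_filter.1 (hR this)).2
    have hdn : jacobiSym (d : ℤ) n = 1 := by
      conv_lhs => rw [← Nat.prod_primeFactors_of_squarefree H.hn]
      rw [jac_prod_right _ _ (fun p hp => (Nat.prime_of_mem_primeFactors hp).ne_zero)]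
      exact Finset.prod_eq_one hall
    have hqq : ∀ q ∈ d.primeFactors, q ≠ q₀ → jacobiSym (q : ℤ) n = 1 := by
      intro q hq hq0
      have hq' := Nat.mem_primeFactors.1 hq
      have h2 : q ∉ R := by
        intro h3
        have h4 := Nat.dvd_of_mem_primeFactors (hRn h3)
        exact hq'.1.one_lt.ne' (Nat.eq_one_of_dvd_coprimes H.hc h4 hq'.2.1)
      have h3 := key1 q (Finset.mem_erase.2 ⟨hq0, Nat.mem_primeFactors.2
        ⟨hq'.1, hq'.2.1.mul_left n, mul_ne_zero hn0 hd0⟩⟩) h2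
      rwa [hrn] at h3
    have hq0d : q₀ ∈ d.primeFactors := Nat.mem_primeFactors.2 ⟨H.hq, H.hqd, hd0⟩
    have hq0 : jacobiSym (q₀ : ℤ) n = 1 := by
      have h2 : jacobiSym (d : ℤ) n = jacobiSym (q₀ : ℤ) n := by
        conv_lhs => rw [← Nat.prod_primeFactors_of_squarefree H.hd]
        rw [Nat.cast_prod, jac_prod_left (fun p => (p : ℤ)),
          ← Finset.mul_prod_erase _ _ hq0d, Finset.prod_eq_one, mul_one]
        intro q hq
        exact hqq q (Finset.mem_of_mem_erase hq) (Finset.ne_of_mem_erase hq)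
      rw [← h2]
      exact hdn
    rcases hQ' n d rfl (fun p hp hpd => by
        by_cases h2 : p = q₀
        · rw [h2]; exact hq0
        · exact hqq p (Nat.mem_primeFactors.2 ⟨hp, hpd, hd0⟩) h2)
      (fun p hp hpn => by
        have hp' : p ∈ n.primeFactors := Nat.mem_primeFactors.2 ⟨hp, hpn, hn0⟩
        rw [← jacobiSym.quadratic_reciprocity_one_mod_four H.hd4 (Nat.odd_iff.2 (hodd p hp'))]
        exact hall p hp') with h2 | h2
    · have := H.hn4; omega
    · have := H.hd1; omega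

end main

end Pool.Agent.N574.QB
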