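import Pool.Agent.N856.QB.Stm
import Pool.Agent.N875.X15.Crit
import Pool.Agent.N574.QB.Lin

/-!
# QB-CNT: the number of the pairs
-/

set_option autoImplicit false

namespace Pool.Agent.N574.QB

open scoped Classical

open Pool.Agent.N875.X15 (sg ad sg_add sg_inj sg_sum sg_ad transpose_criterion jac_of_sq val_p
  val_zero even_val)
open Pool.Agent.N856.QB (At Rel Hy spl inr dm S_CNT)

section loc

variable {p : ℕ} [hp : Fact p.Prime]

/-- Hensel's lemma -/
lemma sq_of_jac (hp2 : p ≠ 2) {a : ℤ} (h : jacobiSym a p = 1) : IsSquare (a : ℚ_[p]) := by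
  rw [← jacobiSym.legendreSym.to_jacobiSym] at h
  have ha : ((a : ℤ) : ZMod p) ≠ 0 := by
    intro h0
    rw [(legendreSym.eq_zero_iff p a).2 h0] at h
    exact absurd h (by norm_num)
  obtain ⟨r, hr⟩ := (legendreSym.eq_one_iff p ha).1 h
  obtain ⟨s, rfl⟩ := ZMod.intCast_surjective r
  have h1 : (p : ℤ) ∣ s ^ 2 - a := by
    rw [← ZMod.intCast_zmod_eq_zero_iff_dvd]
    push_cast
    rw [hr]
    ring
  have h2 : ¬ (p : ℤ) ∣ 2 * s := by
    intro h3
    rcases (Nat.prime_iff_prime_int.1 hp.out).dvd_or_dvd h3 with h4 | h4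
    · have h5 : p ∣ 2 := by exact_mod_cast h4
      exact hp2 ((Nat.prime_dvd_prime_iff_eq hp.out Nat.prime_two).1 h5)
    · apply ha
      rw [hr, (ZMod.intCast_zmod_eq_zero_iff_dvd s p).2 h4, mul_zero]
  set F : Polynomial ℤ_[p] := Polynomial.X ^ 2 - Polynomial.C (a : ℤ_[p]) with hF
  have e1 : Polynomial.aeval (s : ℤ_[p]) F = ((s ^ 2 - a : ℤ) : ℤ_[p]) := by
    simp [hF]
  have e2 : Polynomial.aeval (s : ℤ_[p]) (Polynomial.derivative F) = ((2 * s : ℤ) : ℤ_[p]) := by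
    simp [hF]
    norm_num
  have n2 : ‖((2 * s : ℤ) : ℤ_[p])‖ = 1 := by
    refine le_antisymm (PadicInt.norm_le_one _) ?_
    rw [← not_lt, PadicInt.norm_int_lt_one_iff_dvd]
    exact h2
  have n1 : ‖Polynomial.aeval (s : ℤ_[p]) F‖ <
      ‖Polynomial.aeval (s : ℤ_[p]) (Polynomial.derivative F)‖ ^ 2 := by
    rw [e1, e2, n2, one_pow, PadicInt.norm_int_lt_one_iff_dvd]
    exact h1
  obtain ⟨z, hz, -⟩ := hensels_lemma n1
  have hz' : z ^ 2 = (a : ℤ_[p]) := by
    have : z ^ 2 - (a : ℤ_[p]) = 0 := by simpa [hF] using hz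
    exact sub_eq_zero.1 this
  refine ⟨(z : ℚ_[p]), ?_⟩
  have h4 : ((z ^ 2 : ℤ_[p]) : ℚ_[p]) = (a : ℚ_[p]) := by rw [hz']; push_cast; rfl
  rw [← h4]
  push_cast
  ring

lemma sqi (hp2 : p ≠ 2) {a : ℤ} (ha : ¬ (p : ℤ) ∣ a) : IsSquare (a : ℚ_[p]) ↔ jacobiSym a p = 1 :=
  ⟨jac_of_sq ha, sq_of_jac hp2⟩

lemma nsq {a b : ℤ} (ha : ¬ (p : ℤ) ∣ a) (e : b = p * a) : ¬ IsSquare (b : ℚ_[p]) := by
  subst e
  intro h
  have ha0 : (a : ℚ_[p]) ≠ 0 := by
    have : a ≠ 0 := by rintro rfl; simp at ha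
    exact_mod_cast this
  have hp0 : ((p : ℕ) : ℚ_[p]) ≠ 0 := by exact_mod_cast hp.out.ne_zero
  push_cast at h
  have h1 := even_val (mul_ne_zero hp0 ha0) h
  rw [Padic.valuation_mul hp0 ha0, val_p, val_zero ha] at h1
  exact absurd h1 (by decide)

lemma sqp (hp2 : p ≠ 2) {a b : ℤ} (ha : ¬ (p : ℤ) ∣ a) (e : b = p * p * a) :
    IsSquare (b : ℚ_[p]) ↔ jacobiSym a p = 1 := by
  subst e
  rw [← sqi hp2 ha]
  have hp0 : ((p : ℕ) : ℚ_[p]) ≠ 0 := by exact_mod_cast hp.out.ne_zero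
  constructor
  · rintro ⟨r, hr⟩
    refine ⟨r / p, ?_⟩
    push_cast at hr
    field_simp
    linear_combination hr
  · rintro ⟨r, hr⟩
    refine ⟨r * p, ?_⟩
    push_cast
    rw [hr]
    ring

end loc

/-- the number `b` -/
def toB (B : Finset ℕ) : ℤ := ∏ q ∈ B, (eps q * q)

/-- the number `a` -/
def toA (A B : Finset ℕ) : ℤ := (∏ q ∈ B, eps q) * ∏ q ∈ A, (q : ℤ)

/-- a set of odd primes -/
def OP (A : Finset ℕ) : Prop := ∀ q ∈ A, q.Prime ∧ q % 2 = 1

lemma OP.erase {A : Finset ℕ} (h : OP A) (p : ℕ) : OP (A.erase p) :=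
  fun q hq => h q (Finset.mem_of_mem_erase hq)

lemma prod_eps_unit (B : Finset ℕ) : IsUnit (∏ q ∈ B, eps q) := by
  refine Finset.prod_induction _ IsUnit (fun a b => IsUnit.mul) isUnit_one (fun q _ => eps_unit q)

lemma toB_eq (B : Finset ℕ) : toB B = (∏ q ∈ B, eps q) * ∏ q ∈ B, (q : ℤ) :=
  Finset.prod_mul_distrib

lemma natAbs_toB (B : Finset ℕ) : (toB B).natAbs = ∏ q ∈ B, q := by
  rw [toB_eq, Int.natAbs_mul, Int.natAbs_of_isUnit (prod_eps_unit B), one_mul, ← Nat.cast_prod,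
    Int.natAbs_natCast]

lemma natAbs_toA (A B : Finset ℕ) : (toA A B).natAbs = ∏ q ∈ A, q := by
  rw [toA, Int.natAbs_mul, Int.natAbs_of_isUnit (prod_eps_unit B), one_mul, ← Nat.cast_prod,
    Int.natAbs_natCast]

lemma toB_mod {B : Finset ℕ} (hB : OP B) : toB B % 4 = 1 := by
  unfold toB
  induction B using Finset.induction_on with
  | empty => rfl
  | insert x s hx ih =>
    rw [Finset.prod_insert hx, Int.mul_emod, ih fun q hq => hB q (Finset.mem_insert_of_mem hq),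
      eps_mod (hB x (Finset.mem_insert_self _ _)).2]
    rfl

lemma not_dvd_prod {A : Finset ℕ} (hA : OP A) {p : ℕ} (hp : p.Prime) (h : p ∉ A) :
    ¬ p ∣ ∏ q ∈ A, q := fun h1 => h (prime_dvd_prod (fun q hq => (hA q hq).1) hp h1)

lemma not_dvd_toA {A : Finset ℕ} (hA : OP A) (B : Finset ℕ) {p : ℕ} (hp : p.Prime) (h : p ∉ A) :
    ¬ (p : ℤ) ∣ toA A B := by
  rw [Int.natCast_dvd, natAbs_toA]
  exact not_dvd_prod hA hp h

lemma not_dvd_toB {B : Finset ℕ} (hB : OP B) {p : ℕ} (hp : p.Prime) (h : p ∉ B) :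
    ¬ (p : ℤ) ∣ toB B := by
  rw [Int.natCast_dvd, natAbs_toB]
  exact not_dvd_prod hB hp h

lemma sg_eq_one_iff {x : ZMod 2} : x = 0 ↔ sg x = 1 := sg_inj.symm

section at_

variable {n p : ℕ}

lemma sum_LB_not {B : Finset ℕ} (hB : OP B) (hp : p.Prime) (h : p ∉ B) :
    sg (∑ q ∈ B, LBf n p q) = jacobiSym (toB B) p := by
  rw [sg_sum, toB, jac_prod_left (fun q => eps q * q)]
  refine Finset.prod_congr rfl fun q hq => ?_
  have hpq : q ≠ p := fun h1 => h (h1 ▸ hq)
  rw [LBf, if_neg hpq, sg_ad (cop_eps (hB q hq).1 hp hpq)]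

lemma sum_LB {B : Finset ℕ} (hB : OP B) (hp : p.Prime) (h : p ∈ B)
    (hc : IsCoprime ((n / p : ℕ) : ℤ) p) :
    sg (∑ q ∈ B, LBf n p q) = jacobiSym ((n / p : ℕ) : ℤ) p * jacobiSym (toB (B.erase p)) p := by
  rw [← Finset.add_sum_erase _ _ h, sg_add, sum_LB_not (hB.erase p) hp (Finset.notMem_erase _ _),
    LBf, if_pos rfl, sg_ad hc]

lemma sum_MA_not {A : Finset ℕ} (hA : OP A) (hp : p.Prime) (h : p ∉ A) :
    sg (∑ q ∈ A, MAf n p q) = jacobiSym (∏ q ∈ A, (q : ℤ)) p := by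
  rw [sg_sum, jac_prod_left (fun q => (q : ℤ))]
  refine Finset.prod_congr rfl fun q hq => ?_
  have hpq : q ≠ p := fun h1 => h (h1 ▸ hq)
  rw [MAf, if_neg hpq, sg_ad (cop (hA q hq).1 hp hpq)]

lemma sum_MA {A : Finset ℕ} (hA : OP A) (hp : p.Prime) (h : p ∈ A)
    (hc : IsCoprime ((n / p : ℕ) : ℤ) p) :
    sg (∑ q ∈ A, MAf n p q) =
      jacobiSym ((n / p : ℕ) : ℤ) p * jacobiSym (∏ q ∈ A.erase p, (q : ℤ)) p := by
  rw [← Finset.add_sum_erase _ _ h, sg_add, sum_MA_not (hA.erase p) hp (Finset.notMem_erase _ _),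
    MAf, if_pos rfl, sg_ad hc]

lemma sum_MB (B : Finset ℕ) :
    sg (∑ q ∈ B, MBf p q) = jacobiSym (∏ q ∈ B, eps q) p * (if p ∈ B then jacobiSym (-1) p else 1) := by
  have hm : sg (ad (-1) p) = jacobiSym (-1) p := sg_ad (isCoprime_one_left.neg_left)
  have e1 : ∑ q ∈ B, MBf p q = ∑ q ∈ B, (if q % 4 = 3 then ad (-1) p else 0) +
      ∑ q ∈ B, (if q = p then ad (-1) p else 0) := Finset.sum_add_distrib
  rw [e1, sg_add, sg_sum, jac_prod_left]
  congr 1
  · refine Finset.prod_congr rfl fun q _ => ?_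
    unfold eps
    split_ifs
    · exact hm
    · rw [jacobiSym.one_left]
      rfl
  · rw [Finset.sum_ite_eq' B p]
    split_ifs
    · exact hm
    · rfl

/-- **The local condition.** -/
theorem at_iff [hp : Fact p.Prime] (hn : Squarefree n) (hp2 : p % 2 = 1) (hpn : p ∣ n)
    {A B : Finset ℕ} (hA : OP A) (hB : OP B) :
    At p (-n) (toA A B) (toB B) ↔
      (∑ q ∈ A, MAf n p q + ∑ q ∈ B, MBf p q = 0 ∧ ∑ q ∈ B, LBf n p q = 0) := by
  obtain ⟨n', hn'⟩ := hpn
  have hp0 := hp.out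
  have hpp : Prime (p : ℤ) := Nat.prime_iff_prime_int.1 hp0
  have hne2 : p ≠ 2 := by rintro rfl; omega
  have hdiv : n / p = n' := by rw [hn', Nat.mul_div_cancel_left _ hp0.pos]
  have hcop : Nat.Coprime p n' := by
    rw [hn'] at hn
    exact Nat.coprime_of_squarefree_mul hn
  have hc : IsCoprime ((n / p : ℕ) : ℤ) p := by
    rw [hdiv, Nat.isCoprime_iff_coprime]
    exact hcop.symm
  have hn'd : ¬ (p : ℤ) ∣ (n' : ℤ) := by
    intro h
    have h1 : p ∣ n' := by exact_mod_cast h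
    exact hp0.one_lt.ne' (Nat.eq_one_of_dvd_coprimes hcop dvd_rfl h1)
  have hnz : (n : ℤ) = p * n' := by rw [hn']; push_cast; ring
  have mul_nd : ∀ x y : ℤ, ¬ (p : ℤ) ∣ x → ¬ (p : ℤ) ∣ y → ¬ (p : ℤ) ∣ x * y := by
    intro x y hx hy h
    rcases hpp.dvd_or_dvd h with h1 | h1
    · exact hx h1
    · exact hy h1
  have neg_nd : ∀ x : ℤ, ¬ (p : ℤ) ∣ x → ¬ (p : ℤ) ∣ -x := fun x hx h => hx ((dvd_neg).1 h)
  have unit_nd : ∀ x : ℤ, IsUnit x → ¬ (p : ℤ) ∣ x := fun x hx h => hpp.not_isUnit (isUnit_of_dvd_unit h hx)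
  have hneg : ∀ x : ℤ, jacobiSym (-x) p = jacobiSym (-1) p * jacobiSym x p := by
    intro x
    rw [← jacobiSym.mul_left]
    congr 1
    ring
  have heps : jacobiSym (-eps p) p = 1 := by
    have h5 : p % 4 = 1 ∨ p % 4 = 3 := by omega
    rcases h5 with h5 | h5
    · rw [eps, if_neg (by omega), jacobiSym.at_neg_one (Nat.odd_iff.2 hp2),
        ZMod.χ₄_nat_one_mod_four h5]
    · rw [eps, if_pos h5, neg_neg, jacobiSym.one_left]
  unfold At
  rw [sg_eq_one_iff, sg_eq_one_iff, sg_add, sum_MB]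
  by_cases hpB : p ∈ B
  · -- `p ∣ b`
    have hb' : ¬ (p : ℤ) ∣ toB (B.erase p) :=
      not_dvd_toB (hB.erase p) hp0 (Finset.notMem_erase _ _)
    have hbe : toB B = p * (eps p * toB (B.erase p)) := by
      unfold toB
      rw [← Finset.mul_prod_erase B _ hpB]
      ring
    have nb : ¬ IsSquare ((toB B : ℤ) : ℚ_[p]) :=
      nsq (mul_nd _ _ (unit_nd _ (eps_unit p)) hb') hbe
    have sb : IsSquare ((toB B * (-(n : ℤ)) : ℤ) : ℚ_[p]) ↔
        jacobiSym ((n / p : ℕ) : ℤ) p * jacobiSym (toB (B.erase p)) p = 1 := by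
      rw [sqp hne2 (a := (-eps p) * (toB (B.erase p) * n')) (mul_nd _ _
        (neg_nd _ (unit_nd _ (eps_unit p))) (mul_nd _ _ hb' hn'd)) (by rw [hbe, hnz]; ring),
        jacobiSym.mul_left, heps, one_mul, jacobiSym.mul_left, hdiv, mul_comm]
    rw [sum_LB hB hp0 hpB hc, if_pos hpB, sb]
    by_cases hpA : p ∈ A
    · have ha' : ¬ (p : ℤ) ∣ ∏ q ∈ A.erase p, (q : ℤ) := by
        have := not_dvd_prod (hA.erase p) hp0 (Finset.notMem_erase _ _)
        rw [← Nat.cast_prod]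
        exact fun h => this (by exact_mod_cast h)
      have hae : toA A B = p * ((∏ q ∈ B, eps q) * ∏ q ∈ A.erase p, (q : ℤ)) := by
        unfold toA
        rw [← Finset.mul_prod_erase A _ hpA]
        ring
      have hax := mul_nd _ _ (unit_nd _ (prod_eps_unit B)) ha'
      have na : ¬ IsSquare ((-(toA A B) : ℤ) : ℚ_[p]) :=
        nsq (neg_nd _ hax) (by rw [hae]; ring)
      have sa : IsSquare ((toA A B * (-(n : ℤ)) : ℤ) : ℚ_[p]) ↔
          jacobiSym ((n / p : ℕ) : ℤ) p * jacobiSym (∏ q ∈ A.erase p, (q : ℤ)) p *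
            (jacobiSym (∏ q ∈ B, eps q) p * jacobiSym (-1) p) = 1 := by
        rw [sqp hne2 (a := -(((∏ q ∈ B, eps q) * ∏ q ∈ A.erase p, (q : ℤ)) * n'))
          (neg_nd _ (mul_nd _ _ hax hn'd)) (by rw [hae, hnz]; ring), hneg, jacobiSym.mul_left,
          jacobiSym.mul_left, hdiv]
        constructor <;> intro h <;> linear_combination h
      rw [sum_MA hA hp0 hpA hc, sa]
      constructor
      · rintro (⟨-, h⟩ | ⟨h, -⟩ | ⟨-, h⟩ | h)
        · exact absurd h nb
        · exact absurd h na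
        · exact absurd h nb
        · exact h
      · exact fun h => Or.inr (Or.inr (Or.inr h))
    · have ha' : ¬ (p : ℤ) ∣ toA A B := not_dvd_toA hA B hp0 hpA
      have na : ¬ IsSquare ((toA A B * (-(n : ℤ)) : ℤ) : ℚ_[p]) :=
        nsq (neg_nd _ (mul_nd _ _ ha' hn'd)) (by rw [hnz]; ring)
      have sa : IsSquare ((-(toA A B) : ℤ) : ℚ_[p]) ↔
          jacobiSym (∏ q ∈ A, (q : ℤ)) p *
            (jacobiSym (∏ q ∈ B, eps q) p * jacobiSym (-1) p) = 1 := by
        rw [sqi hne2 (neg_nd _ ha'), hneg, toA, jacobiSym.mul_left]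
        constructor <;> intro h <;> linear_combination h
      rw [sum_MA_not hA hp0 hpA, sa]
      constructor
      · rintro (⟨-, h⟩ | h | ⟨-, h⟩ | ⟨h, -⟩)
        · exact absurd h nb
        · exact h
        · exact absurd h nb
        · exact absurd h na
      · exact fun h => Or.inr (Or.inl h)
  · have hb' : ¬ (p : ℤ) ∣ toB B := not_dvd_toB hB hp0 hpB
    have nb : ¬ IsSquare ((toB B * (-(n : ℤ)) : ℤ) : ℚ_[p]) :=
      nsq (neg_nd _ (mul_nd _ _ hb' hn'd)) (by rw [hnz]; ring)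
    have sb : IsSquare ((toB B : ℤ) : ℚ_[p]) ↔ jacobiSym (toB B) p = 1 := sqi hne2 hb'
    rw [sum_LB_not hB hp0 hpB, if_neg hpB, sb, mul_one]
    by_cases hpA : p ∈ A
    · have ha' : ¬ (p : ℤ) ∣ ∏ q ∈ A.erase p, (q : ℤ) := by
        have := not_dvd_prod (hA.erase p) hp0 (Finset.notMem_erase _ _)
        rw [← Nat.cast_prod]
        exact fun h => this (by exact_mod_cast h)
      have hae : toA A B = p * ((∏ q ∈ B, eps q) * ∏ q ∈ A.erase p, (q : ℤ)) := by
        unfold toA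
        rw [← Finset.mul_prod_erase A _ hpA]
        ring
      have hax := mul_nd _ _ (unit_nd _ (prod_eps_unit B)) ha'
      have na : ¬ IsSquare ((toA A B : ℤ) : ℚ_[p]) := nsq hax hae
      have sa : IsSquare ((-(toA A B * (-(n : ℤ))) : ℤ) : ℚ_[p]) ↔
          jacobiSym ((n / p : ℕ) : ℤ) p * jacobiSym (∏ q ∈ A.erase p, (q : ℤ)) p *
            jacobiSym (∏ q ∈ B, eps q) p = 1 := by
        rw [sqp hne2 (a := (((∏ q ∈ B, eps q) * ∏ q ∈ A.erase p, (q : ℤ)) * n'))
          (mul_nd _ _ hax hn'd) (by rw [hae, hnz]; ring), jacobiSym.mul_left,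
          jacobiSym.mul_left, hdiv]
        constructor <;> intro h <;> linear_combination h
      rw [sum_MA hA hp0 hpA hc, sa]
      constructor
      · rintro (⟨h, -⟩ | ⟨-, h⟩ | h | ⟨-, h⟩)
        · exact absurd h na
        · exact absurd h nb
        · exact h
        · exact absurd h nb
      · exact fun h => Or.inr (Or.inr (Or.inl h))
    · have ha' : ¬ (p : ℤ) ∣ toA A B := not_dvd_toA hA B hp0 hpA
      have na : ¬ IsSquare ((-(toA A B * (-(n : ℤ))) : ℤ) : ℚ_[p]) :=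
        nsq (mul_nd _ _ ha' hn'd) (by rw [hnz]; ring)
      have sa : IsSquare ((toA A B : ℤ) : ℚ_[p]) ↔
          jacobiSym (∏ q ∈ A, (q : ℤ)) p * jacobiSym (∏ q ∈ B, eps q) p = 1 := by
        rw [sqi hne2 ha', toA, jacobiSym.mul_left]
        constructor <;> intro h <;> linear_combination h
      rw [sum_MA_not hA hp0 hpA, sa]
      constructor
      · rintro (h | ⟨-, h⟩ | ⟨h, -⟩ | ⟨-, h⟩)
        · exact h
        · exact absurd h nb
        · exact absurd h na
        · exact absurd h nb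
      · exact fun h => Or.inl h

end at_

/-- the support has the product -/
lemma prod_primeFactors_natAbs {z : ℤ} (h : Squarefree z) :
    ∏ q ∈ z.natAbs.primeFactors, q = z.natAbs :=
  Nat.prod_primeFactors_of_squarefree (Int.squarefree_natAbs.2 h)

lemma qq_of {n : ℕ} (_ : n ≠ 0) (h : Pool.Agent.N969.P15.Qc n) : QQ n := by
  intro b c hbc h1 h2
  exact h b c hbc (fun p hp => h1 p (Nat.prime_of_mem_primeFactors hp)
    (Nat.dvd_of_mem_primeFactors hp)) (fun p hp => h2 p (Nat.prime_of_mem_primeFactors hp)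
    (Nat.dvd_of_mem_primeFactors hp))

/-- **QB-CNT.** -/
theorem t_CNT : S_CNT := by
  intro n d hy hQ hQ' q₀ hq₀ hqd
  obtain ⟨⟨hn, hn60⟩, ⟨hd, hd12, hd5⟩, hd1, hcop⟩ := hy
  have H : HH n d q₀ := ⟨hn, by omega, hd, by omega, hcop, hd1, hq₀, hqd⟩
  have hn0 := hn.ne_zero
  have hd0 := hd.ne_zero
  have hnd0 : n * d ≠ 0 := mul_ne_zero hn0 hd0
  have hQn := qq_of hn0 hQ
  have hQnd := qq_of hnd0 hQ'
  have hTn : QT n := transpose_criterion hn H.hn4 hQn
  have hTnd : QT (n * d) := transpose_criterion H.sq H.nd4 hQnd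
  set P : Finset ℕ := (n * d).primeFactors.erase q₀ with hP
  set S : Finset ℕ := n.primeFactors.filter fun p => jacobiSym d p = 1 with hS
  have hPP : ∀ T : Finset ℕ, T ⊆ P → OP T := by
    intro T hT q hq
    have h1 := Nat.mem_primeFactors.1 (Finset.mem_erase.1 (hT hq)).2
    exact ⟨h1.1, H.odd h1.1 h1.2.1⟩
  let LB : Matrix S P (ZMod 2) := Matrix.of fun p q => LBf n p q
  let MA : Matrix S P (ZMod 2) := Matrix.of fun p q => MAf n p q
  let MB : Matrix S P (ZMod 2) := Matrix.of fun p q => MBf p q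
  have hLB : ∀ (β : P → ZMod 2) (p : S), LB.mulVec β p = ∑ q ∈ supp β, LBf n p q :=
    fun β p => sum_supp β (fun q => LBf n p q)
  have hMA : ∀ (β : P → ZMod 2) (p : S), MA.mulVec β p = ∑ q ∈ supp β, MAf n p q :=
    fun β p => sum_supp β (fun q => MAf n p q)
  have hMB : ∀ (β : P → ZMod 2) (p : S), MB.mulVec β p = ∑ q ∈ supp β, MBf p q :=
    fun β p => sum_supp β (fun q => MBf p q)
  have hcard := card_ker LB MA MB (fun ρ hρ => by
      refine supp_eq_empty (LB_inj H hQn hQnd (supp_sub ρ) fun q hq => ?_)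
      have h1 := congrFun hρ ⟨q, hq⟩
      rw [← sum_supp ρ (fun p => LBf n p q)]
      exact h1) (fun ρ hρ => by
      refine supp_eq_empty (MA_inj H hTn hTnd (supp_sub ρ) fun q hq => ?_)
      have h1 := congrFun hρ ⟨q, hq⟩
      rw [← sum_supp ρ (fun p => MAf n p q)]
      exact h1)
  -- the exponent
  have hexp : Fintype.card P - Fintype.card S = dm n d - 1 := by
    rw [Fintype.card_coe, Fintype.card_coe, hP, Finset.card_erase_of_mem
      (Nat.mem_primeFactors.2 ⟨hq₀, hqd.mul_left n, hnd0⟩), hcop.primeFactors_mul,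
      Finset.card_union_of_disjoint hcop.disjoint_primeFactors]
    have h1 : n.primeFactors.card = S.card + inr n d := by
      unfold inr
      rw [hS, ← Finset.card_union_of_disjoint]
      · congr 1
        ext p
        rw [Finset.mem_union, Finset.mem_filter, Finset.mem_filter]
        constructor
        · intro hp
          have hp' := Nat.mem_primeFactors.1 hp
          rcases jac_pm (a := (d : ℤ)) (q := p) (by
            rw [Nat.isCoprime_iff_coprime]
            exact (hcop.coprime_dvd_left hp'.2.1).symm) with h | h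
          · exact Or.inl ⟨hp, h⟩
          · exact Or.inr ⟨hp, h⟩
        · rintro (h | h)
          · exact h.1
          · exact h.1
      · rw [Finset.disjoint_filter]
        intro p _ h h'
        rw [h] at h'
        exact absurd h' (by norm_num)
    unfold dm
    omega
  rw [← hexp, ← hcard]
  symm
  -- the bijection
  have hsubs : ∀ T : Finset ℕ, T ⊆ P → ∏ q ∈ T, q ∣ n * d := by
    intro T hT
    conv_rhs => rw [← Nat.prod_primeFactors_of_squarefree H.sq]
    exact Finset.prod_dvd_prod_of_subset _ _ _ (hT.trans (Finset.erase_subset _ _))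
  have hq0T : ∀ T : Finset ℕ, T ⊆ P → q₀ ∉ T := fun T hT h =>
    (Finset.mem_erase.1 (hT h)).1 rfl
  have hrel : ∀ A B : Finset ℕ, A ⊆ P → B ⊆ P →
      ((Rel n d (toA A B) (toB B) ∧ ¬ (q₀ : ℤ) ∣ toA A B ∧ ¬ (q₀ : ℤ) ∣ toB B) ↔
      ∀ p ∈ S, ∑ q ∈ A, MAf n p q + ∑ q ∈ B, MBf p q = 0 ∧ ∑ q ∈ B, LBf n p q = 0) := by
    intro A B hA hB
    constructor
    · rintro ⟨h, -, -⟩ p hp
      rw [hS, Finset.mem_filter, Nat.mem_primeFactors] at hp
      have : Fact p.Prime := ⟨hp.1.1⟩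
      rw [← at_iff hn (H.odd hp.1.1 (hp.1.2.1.mul_right d)) hp.1.2.1 (hPP A hA) (hPP B hB)]
      exact h.loc p hp.1.2.1 hp.2
    · intro h
      refine ⟨⟨?_, ?_, ?_, ?_, ?_, toB_mod (hPP B hB), ?_⟩, not_dvd_toA (hPP A hA) B hq₀ (hq0T A hA),
        not_dvd_toB (hPP B hB) hq₀ (hq0T B hB)⟩
      · rw [← Int.squarefree_natAbs, natAbs_toA]
        exact H.sq.squarefree_of_dvd (hsubs A hA)
      · rw [← Int.squarefree_natAbs, natAbs_toB]
        exact H.sq.squarefree_of_dvd (hsubs B hB)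
      · rw [← Int.natAbs_dvd, natAbs_toA]
        exact_mod_cast hsubs A hA
      · rw [← Int.natAbs_dvd, natAbs_toB]
        exact_mod_cast hsubs B hB
      · rw [toA, toB_eq]
        have h1 : 0 < ∏ q ∈ A, (q : ℤ) := Finset.prod_pos fun q hq => by
          exact_mod_cast (hPP A hA q hq).1.pos
        have h2 : 0 < ∏ q ∈ B, (q : ℤ) := Finset.prod_pos fun q hq => by
          exact_mod_cast (hPP B hB q hq).1.pos
        have h3 : (∏ q ∈ B, eps q) * (∏ q ∈ B, eps q) = 1 := by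
          rw [← Finset.prod_mul_distrib]
          exact Finset.prod_eq_one fun q _ => eps_sq q
        rw [show (∏ q ∈ B, eps q) * (∏ q ∈ A, (q : ℤ)) * ((∏ q ∈ B, eps q) * ∏ q ∈ B, (q : ℤ)) =
          ((∏ q ∈ B, eps q) * (∏ q ∈ B, eps q)) * ((∏ q ∈ A, (q : ℤ)) * ∏ q ∈ B, (q : ℤ)) by
          ring, h3, one_mul]
        exact mul_pos h1 h2
      · intro p hpF hpn hjac
        rw [at_iff hn (H.odd hpF.out (hpn.mul_right d)) hpn (hPP A hA) (hPP B hB)]
        exact h p (by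
          rw [hS, Finset.mem_filter, Nat.mem_primeFactors]
          exact ⟨⟨hpF.out, hpn, hn0⟩, hjac⟩)
  have hmem : ∀ x : (P → ZMod 2) × (P → ZMod 2),
      (MA.mulVec x.1 + MB.mulVec x.2 = 0 ∧ LB.mulVec x.2 = 0) ↔
      (Rel n d (toA (supp x.1) (supp x.2)) (toB (supp x.2)) ∧
        ¬ (q₀ : ℤ) ∣ toA (supp x.1) (supp x.2) ∧ ¬ (q₀ : ℤ) ∣ toB (supp x.2)) := by
    intro x
    rw [hrel _ _ (supp_sub _) (supp_sub _)]
    constructor
    · rintro ⟨h1, h2⟩ p hp
      have e1 := congrFun h1 ⟨p, hp⟩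
      have e2 := congrFun h2 ⟨p, hp⟩
      rw [Pi.add_apply, hMA, hMB] at e1
      rw [hLB] at e2
      exact ⟨e1, e2⟩
    · intro h
      constructor
      · funext p
        rw [Pi.add_apply, hMA, hMB]
        exact (h p p.2).1
      · funext p
        rw [hLB]
        exact (h p p.2).2
  refine Nat.card_congr (Equiv.ofBijective (fun x => ⟨(toA (supp x.1.1) (supp x.1.2),
    toB (supp x.1.2)), (hmem x.1).1 x.2⟩) ⟨?_, ?_⟩)
  · rintro ⟨⟨α, β⟩, hx⟩ ⟨⟨α', β'⟩, hx'⟩ h
    have h0 := congrArg Subtype.val h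
    have h1 : toA (supp α) (supp β) = toA (supp α') (supp β') := congrArg Prod.fst h0
    have h2 : toB (supp β) = toB (supp β') := congrArg Prod.snd h0
    have h3 := congrArg Int.natAbs h1
    have h4 := congrArg Int.natAbs h2
    rw [natAbs_toA, natAbs_toA] at h3
    rw [natAbs_toB, natAbs_toB] at h4
    have g : ∀ ρ τ : P → ZMod 2, ∏ q ∈ supp ρ, q = ∏ q ∈ supp τ, q → ρ = τ := by
      intro ρ τ hh
      have h5 := congrArg Nat.primeFactors hh
      rw [Nat.primeFactors_prod (fun q hq => (hPP _ (supp_sub ρ) q hq).1),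
        Nat.primeFactors_prod (fun q hq => (hPP _ (supp_sub τ) q hq).1)] at h5
      exact supp_inj h5
    have e1 := g _ _ h3
    have e2 := g _ _ h4
    subst e1
    subst e2
    rfl
  · rintro ⟨⟨a, b⟩, hab, ha0, hb0⟩
    have hsub : ∀ z : ℤ, Squarefree z → z ∣ n * d → ¬ (q₀ : ℤ) ∣ z → z.natAbs.primeFactors ⊆ P := by
      intro z hz hzd hz0 q hq
      have hq' := Nat.mem_primeFactors.1 hq
      rw [hP, Finset.mem_erase, Nat.mem_primeFactors]
      refine ⟨?_, hq'.1, ?_, hnd0⟩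
      · rintro rfl
        exact hz0 (Int.natCast_dvd.2 hq'.2.1)
      · have h1 : z.natAbs ∣ n * d := by
          rw [← Int.natCast_dvd_natCast]
          rw [← Int.natAbs_dvd] at hzd
          exact_mod_cast hzd
        exact hq'.2.1.trans h1
    obtain ⟨α, hα⟩ := exists_supp (hsub a hab.sa hab.da ha0)
    obtain ⟨β, hβ⟩ := exists_supp (hsub b hab.sb hab.db hb0)
    have eb : toB (supp β) = b := by
      have h1 : (toB (supp β)).natAbs = b.natAbs := by
        rw [natAbs_toB, hβ, prod_primeFactors_natAbs hab.sb]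
      have h2 := toB_mod (hPP _ (supp_sub β))
      have h3 := hab.b4
      simp only at h3
      rcases Int.natAbs_eq_natAbs_iff.1 h1 with h4 | h4
      · exact h4
      · omega
    have hA : supp α ⊆ P := supp_sub α
    have hB : supp β ⊆ P := supp_sub β
    have ea : toA (supp α) (supp β) = a := by
      have h1 : (toA (supp α) (supp β)).natAbs = a.natAbs := by
        rw [natAbs_toA, hα, prod_primeFactors_natAbs hab.sa]
      rcases Int.natAbs_eq_natAbs_iff.1 h1 with h4 | h4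
      · exact h4
      · exfalso
        have h5 : 0 < a * b := hab.pos
        have h6 : 0 < toA (supp α) (supp β) * toB (supp β) := by
          rw [toA, toB_eq]
          have h1 : 0 < ∏ q ∈ supp α, (q : ℤ) := Finset.prod_pos fun q hq => by
            exact_mod_cast (hPP _ hA q hq).1.pos
          have h2 : 0 < ∏ q ∈ supp β, (q : ℤ) := Finset.prod_pos fun q hq => by
            exact_mod_cast (hPP _ hB q hq).1.pos
          have h3 : (∏ q ∈ supp β, eps q) * (∏ q ∈ supp β, eps q) = 1 := by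
            rw [← Finset.prod_mul_distrib]
            exact Finset.prod_eq_one fun q _ => eps_sq q
          rw [show (∏ q ∈ supp β, eps q) * (∏ q ∈ supp α, (q : ℤ)) *
            ((∏ q ∈ supp β, eps q) * ∏ q ∈ supp β, (q : ℤ)) =
            ((∏ q ∈ supp β, eps q) * (∏ q ∈ supp β, eps q)) *
              ((∏ q ∈ supp α, (q : ℤ)) * ∏ q ∈ supp β, (q : ℤ)) by ring, h3, one_mul]
          exact mul_pos h1 h2
        rw [h4, eb] at h6
        linarith
    have hx : MA.mulVec α + MB.mulVec β = 0 ∧ LB.mulVec β = 0 := by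
      refine (hmem (α, β)).2 ?_
      show Rel n d (toA (supp α) (supp β)) (toB (supp β)) ∧ _
      rw [ea, eb]
      exact ⟨hab, ha0, hb0⟩
    refine ⟨⟨(α, β), hx⟩, ?_⟩
    apply Subtype.ext
    show (toA (supp α) (supp β), toB (supp β)) = (a, b)
    rw [ea, eb]

end Pool.Agent.N574.QB
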